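import Mathlib

/-!
# Covering a grid by sets contained in lines
-/

set_option autoImplicit false

namespace Pool.Agent.Q29.VZ

open Finset

/-- the least number of elements `u` that cover `A`, where `u` covers `y` if `rel u y` -/
noncomputable def cov {V α : Type*} (rel : V → α → Prop) (A : Set α) : ℕ :=
  sInf {n : ℕ | ∃ D : Finset V, D.card = n ∧ ∀ y ∈ A, ∃ u ∈ D, rel u y}

section cov

variable {V α : Type*} {rel : V → α → Prop} {A B : Set α}

theorem cov_le (D : Finset V) (h : ∀ y ∈ A, ∃ u ∈ D, rel u y) : cov rel A ≤ D.card :=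
  Nat.sInf_le ⟨D, rfl, h⟩

theorem exists_cov (D : Finset V) (h : ∀ y ∈ A, ∃ u ∈ D, rel u y) :
    ∃ E : Finset V, E.card = cov rel A ∧ ∀ y ∈ A, ∃ u ∈ E, rel u y :=
  Nat.sInf_mem (s := {n : ℕ | ∃ D : Finset V, D.card = n ∧ ∀ y ∈ A, ∃ u ∈ D, rel u y})
    ⟨_, D, rfl, h⟩

theorem cov_mono (hAB : A ⊆ B) (D : Finset V) (h : ∀ y ∈ B, ∃ u ∈ D, rel u y) :
    cov rel A ≤ cov rel B := by
  obtain ⟨E, hE, hE'⟩ := exists_cov D h
  rw [← hE]
  exact cov_le E fun y hy => hE' y (hAB hy)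

end cov

/-- Sets any two members of which lie on a line are contained in a line. -/
theorem lines {V W : Type*} (P : V × W → Prop)
    (h : ∀ p q, P p → P q → p.1 = q.1 ∨ p.2 = q.2) (hne : ∃ p, P p) :
    (∃ y, ∀ p, P p → p.1 = y) ∨ (∃ z, ∀ p, P p → p.2 = z) := by
  obtain ⟨p, hp⟩ := hne
  by_cases h1 : ∀ q, P q → q.1 = p.1
  · exact Or.inl ⟨p.1, h1⟩
  · push Not at h1
    obtain ⟨q, hq, hqp⟩ := h1
    have hq2 : q.2 = p.2 := (h q p hq hp).resolve_left hqp
    refine Or.inr ⟨p.2, fun r hr => ?_⟩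
    by_contra hrp
    have h2 : r.1 = p.1 := (h r p hr hp).resolve_right hrp
    have h3 : r.1 = q.1 := (h r q hr hq).resolve_right (by rw [hq2]; exact hrp)
    exact hqp (h3.symm.trans h2)

open scoped Classical in
/-- **Covering a grid.** -/
theorem grid {V W : Type*} (A : Finset V) (B : Finset W) (rel : V → V → Prop)
    (rel' : W → W → Prop) (hr : ∀ v, rel v v) (hr' : ∀ w, rel' w w) (D : Finset (V × W))
    (F : V × W → V × W → Prop) (hF : ∀ s p, F s p → rel s.1 p.1 ∧ rel' s.2 p.2)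
    (hline : ∀ s ∈ D, ∀ p q : V × W, p.1 ∈ A → p.2 ∈ B → q.1 ∈ A → q.2 ∈ B → F s p → F s q →
      p.1 = q.1 ∨ p.2 = q.2)
    (hcov : ∀ y ∈ A, ∀ z ∈ B, ∃ s ∈ D, F s (y, z)) :
    cov rel (A : Set V) * cov rel' (B : Set W) ≤ D.card := by
  -- the types of the tokens
  have hτ : ∀ s, ∃ t : V ⊕ W, s ∈ D → ∀ p : V × W, p.1 ∈ A → p.2 ∈ B → F s p →
      (∀ y, t = Sum.inl y → p.1 = y) ∧ (∀ z, t = Sum.inr z → p.2 = z) := by
    intro s
    by_cases hs : s ∈ D
    · by_cases hne : ∃ p : V × W, p.1 ∈ A ∧ p.2 ∈ B ∧ F s p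
      · rcases lines (fun p : V × W => p.1 ∈ A ∧ p.2 ∈ B ∧ F s p)
          (fun p q hp hq => hline s hs p q hp.1 hp.2.1 hq.1 hq.2.1 hp.2.2 hq.2.2) hne with
          ⟨y, hy⟩ | ⟨z, hz⟩
        · refine ⟨Sum.inl y, fun _ p h1 h2 h3 => ⟨fun y' h4 => ?_, fun z' h4 => ?_⟩⟩
          · rw [hy p ⟨h1, h2, h3⟩]
            exact Sum.inl_injective h4
          · cases h4
        · refine ⟨Sum.inr z, fun _ p h1 h2 h3 => ⟨fun y' h4 => ?_, fun z' h4 => ?_⟩⟩
          · cases h4
          · rw [hz p ⟨h1, h2, h3⟩]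
            exact Sum.inr_injective h4
      · exact ⟨Sum.inl s.1, fun _ p h1 h2 h3 => absurd ⟨p, h1, h2, h3⟩ hne⟩
    · exact ⟨Sum.inl s.1, fun h => absurd h hs⟩
  choose τ hτ using hτ
  obtain ⟨E, hE, hEc⟩ := exists_cov (rel := rel) (A := (A : Set V)) A fun y hy => ⟨y, hy, hr y⟩
  have hκ : ∀ y, ∃ u, y ∈ A → u ∈ E ∧ rel u y := by
    intro y
    by_cases hy : y ∈ A
    · obtain ⟨u, h1, h2⟩ := hEc y hy
      exact ⟨u, fun _ => ⟨h1, h2⟩⟩
    · exact ⟨y, fun h => absurd h hy⟩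
  choose κ hκ using hκ
  obtain ⟨I, hI⟩ : ∃ I : W → Finset V, ∀ z, I z = E.filter (fun u => ∀ y ∈ A, κ y = u →
    ∃ s ∈ D, τ s = Sum.inr z ∧ F s (y, z)) := ⟨_, fun _ => rfl⟩
  have h1 : ∀ z ∈ B, (I z).card ≤ (D.filter (fun s => τ s = Sum.inr z)).card := by
    intro z hz
    have h2 : cov rel (A : Set V) ≤
        ((E \ I z) ∪ (D.filter (fun s => τ s = Sum.inr z)).image Prod.fst).card := by
      refine cov_le _ fun y hy => ?_
      have hy' : y ∈ A := hy
      obtain ⟨h3, h4⟩ := hκ y hy'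
      by_cases h5 : κ y ∈ I z
      · rw [hI, mem_filter] at h5
        obtain ⟨s, hs, hs1, hs2⟩ := h5.2 y hy' rfl
        exact ⟨s.1, mem_union_right _ (mem_image.2 ⟨s, mem_filter.2 ⟨hs, hs1⟩, rfl⟩),
          (hF s _ hs2).1⟩
      · exact ⟨κ y, mem_union_left _ (mem_sdiff.2 ⟨h3, h5⟩), h4⟩
    have h3 := (h2.trans (card_union_le _ _))
    have h4 := card_image_le (s := D.filter (fun s => τ s = Sum.inr z)) (f := Prod.fst)
    have hIE : I z ⊆ E := by
      rw [hI]
      exact filter_subset _ _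
    have h5 := card_sdiff_add_card_eq_card hIE
    omega
  have h2 : ∀ u ∈ E, cov rel' (B : Set W) ≤
      (D.filter (fun s => ∃ y ∈ A, κ y = u ∧ τ s = Sum.inl y)).card +
        (B.filter (fun z => u ∈ I z)).card := by
    intro u hu
    have h3 : cov rel' (B : Set W) ≤
        ((D.filter (fun s => ∃ y ∈ A, κ y = u ∧ τ s = Sum.inl y)).image Prod.snd ∪
          B.filter (fun z => u ∈ I z)).card := by
      refine cov_le _ fun z hz => ?_
      have hz' : z ∈ B := hz
      by_cases h4 : u ∈ I z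
      · exact ⟨z, mem_union_right _ (mem_filter.2 ⟨hz', h4⟩), hr' z⟩
      · rw [hI, mem_filter] at h4
        push Not at h4
        obtain ⟨y, hy, hyu, h5⟩ := h4 hu
        obtain ⟨s, hs, hsF⟩ := hcov y hy z hz'
        refine ⟨s.2, mem_union_left _ (mem_image.2 ⟨s, mem_filter.2 ⟨hs, y, hy, hyu, ?_⟩, rfl⟩),
          (hF s _ hsF).2⟩
        have h6 := hτ s hs (y, z) hy hz' hsF
        rcases hs' : τ s with y' | z'
        · have h7 : y = y' := h6.1 y' hs'
          rw [h7]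
        · exfalso
          have h7 : z = z' := h6.2 z' hs'
          exact h5 s hs (by rw [hs', h7]) hsF
    exact h3.trans ((card_union_le _ _).trans (Nat.add_le_add_right card_image_le _))
  have h3 : cov rel (A : Set V) * cov rel' (B : Set W) ≤
      ∑ u ∈ E, (D.filter (fun s => ∃ y ∈ A, κ y = u ∧ τ s = Sum.inl y)).card +
        ∑ u ∈ E, (B.filter (fun z => u ∈ I z)).card := by
    rw [← hE, ← smul_eq_mul, ← sum_const, ← sum_add_distrib]
    exact sum_le_sum h2
  have h4 : ∑ u ∈ E, (D.filter (fun s => ∃ y ∈ A, κ y = u ∧ τ s = Sum.inl y)).card ≤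
      (D.filter (fun s => ∃ y, τ s = Sum.inl y)).card := by
    rw [← card_biUnion]
    · refine card_le_card fun s hs => ?_
      rw [mem_biUnion] at hs
      obtain ⟨u, hu, hs⟩ := hs
      rw [mem_filter] at hs ⊢
      obtain ⟨hs1, y, _, _, hs2⟩ := hs
      exact ⟨hs1, y, hs2⟩
    · intro u hu u' hu' huu
      rw [Function.onFun, disjoint_left]
      intro s hs hs'
      rw [mem_filter] at hs hs'
      obtain ⟨_, y, _, h5, h6⟩ := hs
      obtain ⟨_, y', _, h7, h8⟩ := hs'
      apply huu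
      rw [← h5, ← h7]
      congr 1
      exact Sum.inl_injective (h6.symm.trans h8)
  have h5 : ∑ u ∈ E, (B.filter (fun z => u ∈ I z)).card ≤
      (D.filter (fun s => ∃ z, τ s = Sum.inr z)).card := by
    have h6 : ∑ u ∈ E, (B.filter (fun z => u ∈ I z)).card = ∑ z ∈ B, (I z).card := by
      have h7 := sum_card_bipartiteAbove_eq_sum_card_bipartiteBelow (s := E) (t := B)
        (fun u z => u ∈ I z)
      unfold bipartiteAbove bipartiteBelow at h7
      rw [h7]
      refine sum_congr rfl fun z _ => ?_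
      congr 1
      ext u
      rw [mem_filter]
      constructor
      · exact fun h => h.2
      · intro h
        refine ⟨?_, h⟩
        rw [hI] at h
        exact (mem_filter.1 h).1
    rw [h6]
    refine (sum_le_sum h1).trans ?_
    rw [← card_biUnion]
    · refine card_le_card fun s hs => ?_
      rw [mem_biUnion] at hs
      obtain ⟨z, hz, hs⟩ := hs
      rw [mem_filter] at hs ⊢
      exact ⟨hs.1, z, hs.2⟩
    · intro z hz z' hz' hzz
      rw [Function.onFun, disjoint_left]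
      intro s hs hs'
      rw [mem_filter] at hs hs'
      exact hzz (Sum.inr_injective (hs.2.symm.trans hs'.2))
  have h6 : (D.filter (fun s => ∃ y, τ s = Sum.inl y)).card +
      (D.filter (fun s => ∃ z, τ s = Sum.inr z)).card ≤ D.card := by
    rw [← card_union_of_disjoint]
    · exact card_le_card (union_subset (filter_subset _ _) (filter_subset _ _))
    · rw [disjoint_left]
      intro s hs hs'
      rw [mem_filter] at hs hs'
      obtain ⟨_, y, hy⟩ := hs
      obtain ⟨_, z, hz⟩ := hs'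
      rw [hy] at hz
      cases hz
  omega

end Pool.Agent.Q29.VZ
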