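import Mathlib
import Pool.Agent.Q29.VZ.Grid

/-!
# Covering subtrees of a rooted forest by subtrees: the covering number is attained by pairwise
disjoint subtrees
-/

set_option autoImplicit false
set_option linter.unusedSectionVars false

namespace Pool.Agent.Q29.VZ

open Finset

variable {N : Type*} [LinearOrder N]

/-- the set of descendants of `x` (with `x`) in the forest with parent map `p` -/
def Dsc (p : N → N) (x : N) : Set N := {u | ∃ j : ℕ, p^[j] u = x}

/-- subtrees of the rooted forest with parent map `p` -/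
def Sub (p : N → N) (S : Set N) : Prop := ∃ t ∈ S, ∀ u ∈ S, u ≠ t → p u ∈ S ∧ p u ≠ u

section basic

variable {p : N → N}

theorem iter_le (hp : ∀ u, u ≤ p u) (j : ℕ) (u : N) : u ≤ p^[j] u := by
  induction j with
  | zero => exact le_rfl
  | succ j ih =>
    rw [Function.iterate_succ_apply']
    exact ih.trans (hp _)

theorem dsc_le (hp : ∀ u, u ≤ p u) {x u : N} (h : u ∈ Dsc p x) : u ≤ x := by
  obtain ⟨j, rfl⟩ := h
  exact iter_le hp j u

theorem dsc_self (x : N) : x ∈ Dsc p x := ⟨0, rfl⟩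

theorem dsc_trans {x y : N} (h : y ∈ Dsc p x) : Dsc p y ⊆ Dsc p x := by
  rintro u ⟨i, rfl⟩
  obtain ⟨j, rfl⟩ := h
  exact ⟨j + i, Function.iterate_add_apply p j i u⟩

theorem dsc_child {c : N} : c ∈ Dsc p (p c) := ⟨1, rfl⟩

/-- a proper descendant of `x` is a descendant of a child of `x` -/
theorem exists_child {x u : N} (h : u ∈ Dsc p x) (hu : u ≠ x) :
    ∃ c, p c = x ∧ c ≠ x ∧ u ∈ Dsc p c := by
  classical
  obtain ⟨j, hj⟩ := h
  -- the first time x is reached
  have hex : ∃ j, p^[j] u = x := ⟨j, hj⟩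
  have hj0 := Nat.find_spec hex
  have hmin := fun i hi => Nat.find_min hex (m := i) hi
  obtain ⟨k, hk⟩ : ∃ k, Nat.find hex = k := ⟨_, rfl⟩
  rw [hk] at hj0 hmin
  cases k with
  | zero => exact absurd hj0 hu
  | succ k =>
    refine ⟨p^[k] u, ?_, ?_, k, rfl⟩
    · rw [← Function.iterate_succ_apply' p k u]
      exact hj0
    · exact hmin k (Nat.lt_succ_self k)

/-- two children whose descendants meet are equal -/
theorem child_unique (hp : ∀ u, u ≤ p u) {x c c' u : N} (hc : p c = x) (hcx : c ≠ x)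
    (hc' : p c' = x) (hcx' : c' ≠ x) (h : u ∈ Dsc p c) (h' : u ∈ Dsc p c') : c = c' := by
  obtain ⟨i, rfl⟩ := h
  obtain ⟨j, hj⟩ := h'
  have hlt : ∀ e : N, p e = x → e ≠ x → e < x := fun e h1 h2 =>
    lt_of_le_of_ne (h1 ▸ hp e) h2
  rcases lt_trichotomy i j with h1 | h1 | h1
  · exfalso
    obtain ⟨k, rfl⟩ := Nat.exists_eq_add_of_lt h1
    have h2 : p^[k + 1] (p^[i] u) = c' := by
      rw [← hj, ← Function.iterate_add_apply]
      congr 1
      omega
    rw [Function.iterate_succ_apply, hc] at h2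
    have h3 := iter_le hp k x
    rw [h2] at h3
    exact absurd (hlt c' hc' hcx') (not_lt.2 h3)
  · rw [← hj, h1]
  · exfalso
    obtain ⟨k, rfl⟩ := Nat.exists_eq_add_of_lt h1
    have h2 : p^[k + 1] c' = p^[j + k + 1] u := by
      rw [← hj, ← Function.iterate_add_apply]
      congr 1
      omega
    rw [Function.iterate_succ_apply, hc'] at h2
    have h3 := iter_le hp k x
    rw [h2] at h3
    exact absurd (hlt _ hc hcx) (not_lt.2 h3)

/-- all elements of a subtree reach its top inside the subtree -/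
theorem sub_top [Finite N] (hp : ∀ u, u ≤ p u) {S : Set N} {t : N}
    (htS : ∀ u ∈ S, u ≠ t → p u ∈ S ∧ p u ≠ u) (v : N) (hv : v ∈ S) :
    ∃ j, p^[j] v = t ∧ ∀ i ≤ j, p^[i] v ∈ S := by
  induction v using WellFoundedGT.induction with
  | ind v ih =>
    by_cases h : v = t
    · refine ⟨0, h, fun i hi => ?_⟩
      rw [Nat.le_zero.1 hi]
      exact hv
    · obtain ⟨h1, h2⟩ := htS v hv h
      obtain ⟨j, hj, hj'⟩ := ih (p v) (lt_of_le_of_ne (hp v) h2.symm) h1
      refine ⟨j + 1, hj, fun i hi => ?_⟩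
      cases i with
      | zero => exact hv
      | succ i => exact hj' i (by omega)

/-- a subtree that meets the descendants of `x` and does not contain `x` consists of descendants
of `x` -/
theorem sub_inside [Finite N] (hp : ∀ u, u ≤ p u) {S : Set N} (hS : Sub p S) {x u : N}
    (hx : x ∉ S) (hu : u ∈ S) (hux : u ∈ Dsc p x) : S ⊆ Dsc p x := by
  obtain ⟨t, ht, htS⟩ := hS
  obtain ⟨j, hj, hj'⟩ := sub_top hp htS u hu
  obtain ⟨i, hi⟩ := hux
  have h2 : t ∈ Dsc p x := by
    rcases Nat.le_total i j with h3 | h3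
    · exfalso
      apply hx
      rw [← hi]
      exact hj' i h3
    · refine ⟨i - j, ?_⟩
      rw [← hj, ← Function.iterate_add_apply, Nat.sub_add_cancel h3]
      exact hi
  intro v hv
  obtain ⟨k, hk, _⟩ := sub_top hp htS v hv
  exact dsc_trans h2 ⟨k, hk⟩

/-- a subtree containing `x` that meets the descendants of a child `c` contains `c` -/
theorem sub_child [Finite N] (hp : ∀ u, u ≤ p u) {S : Set N} (hS : Sub p S) {x c u : N}
    (hx : x ∈ S) (hc : p c = x) (hcx : c ≠ x) (hu : u ∈ S) (huc : u ∈ Dsc p c) : c ∈ S := by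
  by_contra h
  have h1 := dsc_le hp (sub_inside hp hS h hu huc hx)
  have h2 : c < x := lt_of_le_of_ne (hc ▸ hp c) hcx
  exact absurd h2 (not_lt.2 h1)

/-- a subtree of proper descendants of `x` consists of descendants of one child -/
theorem sub_in_child [Finite N] (hp : ∀ u, u ≤ p u) {S : Set N} (hS : Sub p S) {x : N}
    (hSx : S ⊆ Dsc p x) (hx : x ∉ S) : ∃ c, p c = x ∧ c ≠ x ∧ S ⊆ Dsc p c := by
  obtain ⟨t, ht, htS⟩ := hS
  have htx : t ≠ x := by
    rintro rfl
    exact hx ht
  obtain ⟨c, hc, hcx, htc⟩ := exists_child (hSx ht) htx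
  refine ⟨c, hc, hcx, fun v hv => ?_⟩
  obtain ⟨k, hk, _⟩ := sub_top hp htS v hv
  exact dsc_trans htc ⟨k, hk⟩

/-- two subtrees that meet: the top of one of them lies in the other -/
theorem sub_meet [Finite N] (hp : ∀ u, u ≤ p u) {S S' : Set N} (hS : Sub p S) (hS' : Sub p S')
    (h : (S ∩ S').Nonempty) : ∃ x ∈ S ∩ S', S ⊆ Dsc p x ∨ S' ⊆ Dsc p x := by
  obtain ⟨t, ht, htS⟩ := hS
  obtain ⟨t', ht', htS'⟩ := hS'
  obtain ⟨x, hx, hmax⟩ : ∃ x ∈ S ∩ S', ∀ y ∈ S ∩ S', ¬ x < y :=
    (wellFounded_gt (α := N)).has_min (S ∩ S') h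
  refine ⟨x, hx, ?_⟩
  by_cases h1 : x = t
  · left
    subst h1
    intro v hv
    obtain ⟨k, hk, _⟩ := sub_top hp htS v hv
    exact ⟨k, hk⟩
  · by_cases h2 : x = t'
    · right
      subst h2
      intro v hv
      obtain ⟨k, hk, _⟩ := sub_top hp htS' v hv
      exact ⟨k, hk⟩
    · exfalso
      obtain ⟨h3, h4⟩ := htS x hx.1 h1
      obtain ⟨h5, _⟩ := htS' x hx.2 h2
      exact hmax (p x) ⟨h3, h5⟩ (lt_of_le_of_ne (hp x) h4.symm)

/-- the union of two subtrees that meet is a subtree -/
theorem sub_union [Finite N] (hp : ∀ u, u ≤ p u) {S S' : Set N} (hS : Sub p S) (hS' : Sub p S')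
    (h : (S ∩ S').Nonempty) : Sub p (S ∪ S') := by
  obtain ⟨t, ht, htS⟩ := hS
  obtain ⟨t', ht', htS'⟩ := hS'
  rcases le_total t t' with htt | htt
  · refine ⟨t', Or.inr ht', fun u hu hut => ?_⟩
    by_cases h1 : u ∈ S'
    · obtain ⟨h2, h3⟩ := htS' u h1 hut
      exact ⟨Or.inr h2, h3⟩
    · have h2 : u ∈ S := hu.resolve_right h1
      by_cases h3 : u = t
      · -- then t is not in S', the intersection is below
        exfalso
        subst h3
        obtain ⟨v, hv, hv'⟩ := h
        obtain ⟨j, hj, hj'⟩ := sub_top hp htS' v hv'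
        obtain ⟨i, hi, hi'⟩ := sub_top hp htS v hv
        rcases Nat.le_total i j with h4 | h4
        · exact h1 (hi ▸ hj' i h4)
        · have h5 : t' ≤ u := by
            have h6 := iter_le hp (i - j) t'
            have h7 : p^[i - j] t' = u := by
              rw [← hj, ← Function.iterate_add_apply, Nat.sub_add_cancel h4]
              exact hi
            rwa [h7] at h6
          exact hut (le_antisymm htt h5)
      · obtain ⟨h4, h5⟩ := htS u h2 h3
        exact ⟨Or.inl h4, h5⟩
  · refine ⟨t, Or.inl ht, fun u hu hut => ?_⟩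
    by_cases h1 : u ∈ S
    · obtain ⟨h2, h3⟩ := htS u h1 hut
      exact ⟨Or.inl h2, h3⟩
    · have h2 : u ∈ S' := hu.resolve_left h1
      by_cases h3 : u = t'
      · exfalso
        subst h3
        obtain ⟨v, hv, hv'⟩ := h
        obtain ⟨j, hj, hj'⟩ := sub_top hp htS v hv
        obtain ⟨i, hi, hi'⟩ := sub_top hp htS' v hv'
        rcases Nat.le_total i j with h4 | h4
        · exact h1 (hi ▸ hj' i h4)
        · have h5 : t ≤ u := by
            have h6 := iter_le hp (i - j) t
            have h7 : p^[i - j] t = u := by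
              rw [← hj, ← Function.iterate_add_apply, Nat.sub_add_cancel h4]
              exact hi
            rwa [h7] at h6
          exact hut (le_antisymm htt h5)
      · obtain ⟨h4, h5⟩ := htS' u h2 h3
        exact ⟨Or.inr h4, h5⟩

end basic

end Pool.Agent.Q29.VZ
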