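import Mathlib
import Pool.Agent.Q29.VZ.Tree

/-!
# The min-max theorem for subtrees hitting subtrees
-/

set_option autoImplicit false
set_option linter.unusedSectionVars false

namespace Pool.Agent.Q29.VZ

open Finset

section main

variable {N V α : Type*} [LinearOrder N] [Fintype N] [Fintype V]
  {p : N → N} {T : V → Set N} {S : α → Set N}

/-- the supplier `v` hits the demand `y` -/
def Hit (T : V → Set N) (S : α → Set N) (v : V) (y : α) : Prop := (T v ∩ S y).Nonempty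

/-- demands inside the descendants of `x` -/
def DM (p : N → N) (S : α → Set N) (A : Set α) (x : N) : Set α := {y ∈ A | S y ⊆ Dsc p x}

/-- demands inside the proper descendants of `x` -/
def DL (p : N → N) (S : α → Set N) (A : Set α) (x : N) : Set α :=
  {y ∈ A | S y ⊆ Dsc p x ∧ x ∉ S y}

/-- the exchange property at `x` for proper descendants -/
def ExcL (p : N → N) (T : V → Set N) (S : α → Set N) (A : Set α) (x : N) : Prop :=
  ∀ O₁ O₂ : Finset V, (∀ v ∈ O₁, T v ⊆ Dsc p x ∧ x ∉ T v) → (∀ v ∈ O₂, T v ⊆ Dsc p x ∧ x ∉ T v) →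
    (∀ y ∈ DL p S A x, ∃ v ∈ O₁, Hit T S v y) → (∀ y ∈ DL p S A x, ∃ v ∈ O₂, Hit T S v y) →
    O₁.card ≤ cov (Hit T S) (DL p S A x) → O₂.card ≤ cov (Hit T S) (DL p S A x) →
    ∃ O : Finset V, O.card ≤ cov (Hit T S) (DL p S A x) ∧
      (∀ y ∈ DL p S A x, ∃ v ∈ O, Hit T S v y) ∧
      ∀ R : Set N, Sub p R → x ∈ R → (∃ v, (v ∈ O₁ ∨ v ∈ O₂) ∧ (T v ∩ R).Nonempty) →
        ∃ v ∈ O, (T v ∩ R).Nonempty

/-- the exchange property at `x` for all descendants -/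
def ExcM (p : N → N) (T : V → Set N) (S : α → Set N) (A : Set α) (x : N) : Prop :=
  ∀ O₁ O₂ : Finset V, (∀ v ∈ O₁, T v ⊆ Dsc p x) → (∀ v ∈ O₂, T v ⊆ Dsc p x) →
    (∀ y ∈ DM p S A x, ∃ v ∈ O₁, Hit T S v y) → (∀ y ∈ DM p S A x, ∃ v ∈ O₂, Hit T S v y) →
    O₁.card ≤ cov (Hit T S) (DM p S A x) → O₂.card ≤ cov (Hit T S) (DM p S A x) →
    ∃ O : Finset V, O.card ≤ cov (Hit T S) (DM p S A x) ∧
      (∀ y ∈ DM p S A x, ∃ v ∈ O, Hit T S v y) ∧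
      ∀ R : Set N, Sub p R → x ∈ R → (∃ v, (v ∈ O₁ ∨ v ∈ O₂) ∧ (T v ∩ R).Nonempty) →
        ∃ v ∈ O, (T v ∩ R).Nonempty

theorem univ_covers (hS : ∀ y, Sub p (S y)) (hcov : ∀ x, ∃ v, x ∈ T v) (B : Set α) :
    ∀ y ∈ B, ∃ v ∈ (Finset.univ : Finset V), Hit T S v y := by
  intro y _
  obtain ⟨t, ht, _⟩ := hS y
  obtain ⟨v, hv⟩ := hcov t
  exact ⟨v, mem_univ _, t, hv, ht⟩

theorem excM_of_excL (hS : ∀ y, Sub p (S y)) (hcov : ∀ x, ∃ v, x ∈ T v) {A : Set α} {c : N}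
    (h : ExcL p T S A c) : ExcM p T S A c := by
  classical
  intro O₁ O₂ h1 h2 c1 c2 l1 l2
  by_cases e1 : ∃ v ∈ O₁, c ∈ T v
  · obtain ⟨v, hv, hcv⟩ := e1
    exact ⟨O₁, l1, c1, fun R _ hcR _ => ⟨v, hv, c, hcv, hcR⟩⟩
  by_cases e2 : ∃ v ∈ O₂, c ∈ T v
  · obtain ⟨v, hv, hcv⟩ := e2
    exact ⟨O₂, l2, c2, fun R _ hcR _ => ⟨v, hv, c, hcv, hcR⟩⟩
  push Not at e1 e2
  have hsub : DL p S A c ⊆ DM p S A c := fun y hy => ⟨hy.1, hy.2.1⟩
  have hmono := cov_mono hsub _ (univ_covers (T := T) hS hcov (DM p S A c))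
  by_cases e3 : cov (Hit T S) (DL p S A c) + 1 ≤ cov (Hit T S) (DM p S A c)
  · obtain ⟨E, hE, hEc⟩ := exists_cov _ (univ_covers (T := T) hS hcov (DL p S A c))
    obtain ⟨v, hv⟩ := hcov c
    refine ⟨insert v E, (card_insert_le _ _).trans (by rw [hE]; exact e3), ?_,
      fun R _ hcR _ => ⟨v, mem_insert_self _ _, c, hv, hcR⟩⟩
    intro y hy
    by_cases h3 : c ∈ S y
    · exact ⟨v, mem_insert_self _ _, c, hv, h3⟩
    · obtain ⟨w, hw, hw'⟩ := hEc y ⟨hy.1, hy.2, h3⟩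
      exact ⟨w, mem_insert_of_mem hw, hw'⟩
  · obtain ⟨O, hO, hOc, hOR⟩ := h O₁ O₂ (fun v hv => ⟨h1 v hv, e1 v hv⟩)
      (fun v hv => ⟨h2 v hv, e2 v hv⟩) (fun y hy => c1 y (hsub hy)) (fun y hy => c2 y (hsub hy))
      (by omega) (by omega)
    refine ⟨O, hO.trans hmono, fun y hy => ?_, hOR⟩
    by_cases h3 : c ∈ S y
    · obtain ⟨v, hv, hv'⟩ := c1 y hy
      exact hOR (S y) (hS y) h3 ⟨v, Or.inl hv, hv'⟩
    · exact hOc y ⟨hy.1, hy.2, h3⟩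

theorem excL_of_children (hp : ∀ u, u ≤ p u) (hT : ∀ v, Sub p (T v)) (hS : ∀ y, Sub p (S y))
    (hcov : ∀ x, ∃ v, x ∈ T v) {A : Set α} {x : N}
    (h : ∀ c, p c = x → c ≠ x → ExcM p T S A c) : ExcL p T S A x := by
  classical
  intro O₁ O₂ h1 h2 c1 c2 l1 l2
  obtain ⟨Ch, hCh⟩ : ∃ Ch : Finset N, ∀ c, c ∈ Ch ↔ p c = x ∧ c ≠ x :=
    ⟨Finset.univ.filter (fun c => p c = x ∧ c ≠ x), by simp⟩
  have hxc : ∀ c ∈ Ch, x ∉ Dsc p c := by
    intro c hc hx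
    rw [hCh] at hc
    have h3 := dsc_le hp hx
    have h4 : c ≤ p c := hp c
    rw [hc.1] at h4
    exact hc.2 (le_antisymm h4 h3)
  have hcx : ∀ c ∈ Ch, Dsc p c ⊆ Dsc p x := by
    intro c hc
    rw [hCh] at hc
    rw [← hc.1]
    exact dsc_trans dsc_child
  have huniq : ∀ c ∈ Ch, ∀ c' ∈ Ch, ∀ u, u ∈ Dsc p c → u ∈ Dsc p c' → c = c' := by
    intro c hc c' hc' u hu hu'
    rw [hCh] at hc hc'
    exact child_unique hp hc.1 hc.2 hc'.1 hc'.2 hu hu'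
  -- restrictions
  have hres : ∀ O : Finset V, (∀ v ∈ O, T v ⊆ Dsc p x ∧ x ∉ T v) →
      (∀ y ∈ DL p S A x, ∃ v ∈ O, Hit T S v y) → O.card ≤ cov (Hit T S) (DL p S A x) →
      (∀ c ∈ Ch, ∀ y ∈ DM p S A c, ∃ v ∈ O.filter (fun v => T v ⊆ Dsc p c), Hit T S v y) ∧
      (∀ c ∈ Ch, (O.filter (fun v => T v ⊆ Dsc p c)).card ≤ cov (Hit T S) (DM p S A c)) ∧
      ∑ c ∈ Ch, cov (Hit T S) (DM p S A c) ≤ O.card := by
    intro O hO hOc hOl
    have r1 : ∀ c ∈ Ch, ∀ y ∈ DM p S A c, ∃ v ∈ O.filter (fun v => T v ⊆ Dsc p c),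
        Hit T S v y := by
      intro c hc y hy
      have hyx : y ∈ DL p S A x := ⟨hy.1, hy.2.trans (hcx c hc), fun hx => hxc c hc (hy.2 hx)⟩
      obtain ⟨v, hv, u, huT, huS⟩ := hOc y hyx
      obtain ⟨c', hc'1, hc'2, hc'3⟩ := sub_in_child hp (hT v) (hO v hv).1 (hO v hv).2
      have hc' : c' ∈ Ch := (hCh c').2 ⟨hc'1, hc'2⟩
      have := huniq c hc c' hc' u (hy.2 huS) (hc'3 huT)
      subst this
      exact ⟨v, mem_filter.2 ⟨hv, hc'3⟩, u, huT, huS⟩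
    have r2 : ∀ c ∈ Ch, cov (Hit T S) (DM p S A c) ≤
        (O.filter (fun v => T v ⊆ Dsc p c)).card := fun c hc => cov_le _ (r1 c hc)
    have r3 : ∑ c ∈ Ch, (O.filter (fun v => T v ⊆ Dsc p c)).card ≤ O.card := by
      rw [← card_biUnion]
      · refine card_le_card fun v hv => ?_
        rw [mem_biUnion] at hv
        obtain ⟨c, _, hv⟩ := hv
        exact (mem_filter.1 hv).1
      · intro c hc c' hc' hcc
        rw [Function.onFun, disjoint_left]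
        intro v hv hv'
        rw [mem_filter] at hv hv'
        obtain ⟨t, ht, _⟩ := hT v
        exact hcc (huniq c hc c' hc' t (hv.2 ht) (hv'.2 ht))
    have r4 : cov (Hit T S) (DL p S A x) ≤ ∑ c ∈ Ch, cov (Hit T S) (DM p S A c) := by
      have hE : ∀ c, ∃ E : Finset V, E.card = cov (Hit T S) (DM p S A c) ∧
          ∀ y ∈ DM p S A c, ∃ u ∈ E, Hit T S u y := fun c =>
        exists_cov _ (univ_covers (T := T) hS hcov (DM p S A c))
      choose E hE hEc using hE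
      refine (cov_le (Ch.biUnion E) ?_).trans (card_biUnion_le.trans ?_)
      · intro y hy
        obtain ⟨c, hc1, hc2, hc3⟩ := sub_in_child hp (hS y) hy.2.1 hy.2.2
        obtain ⟨v, hv, hv'⟩ := hEc c y ⟨hy.1, hc3⟩
        exact ⟨v, mem_biUnion.2 ⟨c, (hCh c).2 ⟨hc1, hc2⟩, hv⟩, hv'⟩
      · exact sum_le_sum fun c _ => (hE c).le
    refine ⟨r1, ?_, (sum_le_sum r2).trans r3⟩
    intro c hc
    by_contra hcon
    push Not at hcon
    have := sum_lt_sum r2 ⟨c, hc, hcon⟩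
    omega
  obtain ⟨a1, a2, a3⟩ := hres O₁ h1 c1 l1
  obtain ⟨b1, b2, b3⟩ := hres O₂ h2 c2 l2
  have hO : ∀ c, ∃ O : Finset V, c ∈ Ch → O.card ≤ cov (Hit T S) (DM p S A c) ∧
      (∀ y ∈ DM p S A c, ∃ v ∈ O, Hit T S v y) ∧
      ∀ R : Set N, Sub p R → c ∈ R → (∃ v, (v ∈ O₁.filter (fun v => T v ⊆ Dsc p c) ∨
        v ∈ O₂.filter (fun v => T v ⊆ Dsc p c)) ∧ (T v ∩ R).Nonempty) →
        ∃ v ∈ O, (T v ∩ R).Nonempty := by
    intro c
    by_cases hc : c ∈ Ch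
    · obtain ⟨hc1, hc2⟩ := (hCh c).1 hc
      obtain ⟨O, hO⟩ := h c hc1 hc2 (O₁.filter (fun v => T v ⊆ Dsc p c))
        (O₂.filter (fun v => T v ⊆ Dsc p c)) (fun v hv => (mem_filter.1 hv).2)
        (fun v hv => (mem_filter.1 hv).2) (a1 c hc) (b1 c hc) (a2 c hc) (b2 c hc)
      exact ⟨O, fun _ => hO⟩
    · exact ⟨∅, fun h => absurd h hc⟩
  choose O hO using hO
  refine ⟨Ch.biUnion O, ?_, ?_, ?_⟩
  · refine card_biUnion_le.trans ((sum_le_sum fun c hc => (hO c hc).1).trans (a3.trans l1))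
  · intro y hy
    obtain ⟨c, hc1, hc2, hc3⟩ := sub_in_child hp (hS y) hy.2.1 hy.2.2
    have hc : c ∈ Ch := (hCh c).2 ⟨hc1, hc2⟩
    obtain ⟨v, hv, hv'⟩ := (hO c hc).2.1 y ⟨hy.1, hc3⟩
    exact ⟨v, mem_biUnion.2 ⟨c, hc, hv⟩, hv'⟩
  · rintro R hR hxR ⟨v, hv, u, huT, huR⟩
    have hvx : T v ⊆ Dsc p x ∧ x ∉ T v := by
      rcases hv with hv | hv
      · exact h1 v hv
      · exact h2 v hv
    obtain ⟨c, hc1, hc2, hc3⟩ := sub_in_child hp (hT v) hvx.1 hvx.2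
    have hc : c ∈ Ch := (hCh c).2 ⟨hc1, hc2⟩
    have hcR : c ∈ R := sub_child hp hR hxR hc1 hc2 huR (hc3 huT)
    obtain ⟨w, hw, hw'⟩ := (hO c hc).2.2 R hR hcR ⟨v, by
      rcases hv with hv | hv
      · exact Or.inl (mem_filter.2 ⟨hv, hc3⟩)
      · exact Or.inr (mem_filter.2 ⟨hv, hc3⟩), u, huT, huR⟩
    exact ⟨w, mem_biUnion.2 ⟨c, hc, hw⟩, hw'⟩

theorem excL (hp : ∀ u, u ≤ p u) (hT : ∀ v, Sub p (T v)) (hS : ∀ y, Sub p (S y))
    (hcov : ∀ x, ∃ v, x ∈ T v) (A : Set α) (x : N) : ExcL p T S A x := by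
  induction x using WellFoundedLT.induction with
  | ind x ih =>
    refine excL_of_children hp hT hS hcov fun c hc hcx => excM_of_excL hS hcov (ih c ?_)
    exact lt_of_le_of_ne (hc ▸ hp c) hcx

/-- In a critical family of demands the demands are pairwise disjoint. -/
theorem critical (hp : ∀ u, u ≤ p u) (hT : ∀ v, Sub p (T v)) (hS : ∀ y, Sub p (S y))
    (hcov : ∀ x, ∃ v, x ∈ T v) {A : Set α}
    (hA : ∀ y ∈ A, cov (Hit T S) (A \ {y}) < cov (Hit T S) A) {y₁ y₂ : α} (h1 : y₁ ∈ A)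
    (h2 : y₂ ∈ A) (h12 : y₁ ≠ y₂) : ¬ (S y₁ ∩ S y₂).Nonempty := by
  classical
  intro hne
  -- without loss of generality the top of the first is in the second
  have key : ∀ y₁ y₂ : α, y₁ ∈ A → y₂ ∈ A → y₁ ≠ y₂ → ∀ x, x ∈ S y₁ → x ∈ S y₂ →
      S y₁ ⊆ Dsc p x → False := by
    intro y₁ y₂ h1 h2 h12 x hx1 hx2 hy1
    obtain ⟨D₁, hD₁, hD₁c⟩ := exists_cov _ (univ_covers (T := T) hS hcov (A \ {y₁}))
    obtain ⟨D₂, hD₂, hD₂c⟩ := exists_cov _ (univ_covers (T := T) hS hcov (A \ {y₂}))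
    have hl1 := hA y₁ h1
    have hl2 := hA y₂ h2
    rw [← hD₁] at hl1
    rw [← hD₂] at hl2
    have hn1 : ∀ v ∈ D₁, ¬ Hit T S v y₁ := by
      intro v hv hvy
      have := cov_le (rel := Hit T S) (A := A) D₁ (fun y hy => by
        by_cases h : y = y₁
        · exact ⟨v, hv, h ▸ hvy⟩
        · exact hD₁c y ⟨hy, h⟩)
      omega
    have hn2 : ∀ v ∈ D₂, ¬ Hit T S v y₂ := by
      intro v hv hvy
      have := cov_le (rel := Hit T S) (A := A) D₂ (fun y hy => by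
        by_cases h : y = y₂
        · exact ⟨v, hv, h ▸ hvy⟩
        · exact hD₂c y ⟨hy, h⟩)
      omega
    have hx1' : ∀ v ∈ D₁, x ∉ T v := fun v hv hx => hn1 v hv ⟨x, hx, hx1⟩
    have hx2' : ∀ v ∈ D₂, x ∉ T v := fun v hv hx => hn2 v hv ⟨x, hx, hx2⟩
    obtain ⟨U, hU⟩ : ∃ U : Set α, U = {y ∈ A | ∀ u ∈ S y, u ∉ Dsc p x} := ⟨_, rfl⟩
    have hsplit : ∀ y ∈ A, x ∈ S y ∨ y ∈ DL p S A x ∨ y ∈ U := by
      intro y hy
      by_cases h3 : x ∈ S y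
      · exact Or.inl h3
      · right
        by_cases h4 : ∃ u ∈ S y, u ∈ Dsc p x
        · obtain ⟨u, hu, hu'⟩ := h4
          exact Or.inl ⟨hy, sub_inside hp (hS y) h3 hu hu', h3⟩
        · push Not at h4
          right
          rw [hU]
          exact ⟨hy, h4⟩
    have hcL : ∀ (D : Finset V) (y₀ : α), x ∈ S y₀ → (∀ v ∈ D, x ∉ T v) →
        (∀ y ∈ A \ {y₀}, ∃ v ∈ D, Hit T S v y) →
        ∀ y ∈ DL p S A x, ∃ v ∈ D.filter (fun v => T v ⊆ Dsc p x), Hit T S v y := by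
      intro D y₀ hy₀ hD hDc y hy
      have hne : y ≠ y₀ := by
        rintro rfl
        exact hy.2.2 hy₀
      obtain ⟨v, hv, u, huT, huS⟩ := hDc y ⟨hy.1, hne⟩
      exact ⟨v, mem_filter.2 ⟨hv, sub_inside hp (hT v) (hD v hv) huT (hy.2.1 huS)⟩, u, huT, huS⟩
    have hcU : ∀ (D : Finset V) (y₀ : α), x ∈ S y₀ →
        (∀ y ∈ A \ {y₀}, ∃ v ∈ D, Hit T S v y) →
        ∀ y ∈ U, ∃ v ∈ D.filter (fun v => ¬ T v ⊆ Dsc p x), Hit T S v y := by
      intro D y₀ hy₀ hDc y hy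
      rw [hU] at hy
      have hne : y ≠ y₀ := by
        rintro rfl
        exact hy.2 x hy₀ (dsc_self x)
      obtain ⟨v, hv, u, huT, huS⟩ := hDc y ⟨hy.1, hne⟩
      exact ⟨v, mem_filter.2 ⟨hv, fun h => hy.2 u huS (h huT)⟩, u, huT, huS⟩
    have e1 := hcL D₁ y₁ hx1 hx1' hD₁c
    have e2 := hcL D₂ y₂ hx2 hx2' hD₂c
    have f1 := hcU D₁ y₁ hx1 hD₁c
    have f2 := hcU D₂ y₂ hx2 hD₂c
    have g1 := cov_le _ f1
    have g2 := cov_le _ f2
    have s1 := card_filter_add_card_filter_not (s := D₁) (fun v => T v ⊆ Dsc p x)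
    have s2 := card_filter_add_card_filter_not (s := D₂) (fun v => T v ⊆ Dsc p x)
    have hτ : cov (Hit T S) A ≤ cov (Hit T S) (DL p S A x) + cov (Hit T S) U + 1 := by
      obtain ⟨E, hE, hEc⟩ := exists_cov _ (univ_covers (T := T) hS hcov (DL p S A x))
      obtain ⟨E', hE', hEc'⟩ := exists_cov _ (univ_covers (T := T) hS hcov U)
      obtain ⟨v, hv⟩ := hcov x
      rw [← hE, ← hE']
      refine (cov_le (insert v (E ∪ E')) ?_).trans ((card_insert_le _ _).trans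
        (Nat.add_le_add_right (card_union_le _ _) 1))
      intro y hy
      rcases hsplit y hy with h3 | h3 | h3
      · exact ⟨v, mem_insert_self _ _, x, hv, h3⟩
      · obtain ⟨w, hw, hw'⟩ := hEc y h3
        exact ⟨w, mem_insert_of_mem (mem_union_left _ hw), hw'⟩
      · obtain ⟨w, hw, hw'⟩ := hEc' y h3
        exact ⟨w, mem_insert_of_mem (mem_union_right _ hw), hw'⟩
    obtain ⟨O, hO, hOc, hOR⟩ := excL hp hT hS hcov A x (D₁.filter (fun v => T v ⊆ Dsc p x))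
      (D₂.filter (fun v => T v ⊆ Dsc p x))
      (fun v hv => ⟨(mem_filter.1 hv).2, hx1' v (mem_filter.1 hv).1⟩)
      (fun v hv => ⟨(mem_filter.1 hv).2, hx2' v (mem_filter.1 hv).1⟩) e1 e2 (by omega) (by omega)
    have hfin : cov (Hit T S) A ≤ (O ∪ D₁.filter (fun v => ¬ T v ⊆ Dsc p x)).card := by
      refine cov_le _ fun y hy => ?_
      rcases hsplit y hy with h3 | h3 | h3
      · by_cases h4 : y = y₁
        · subst h4
          obtain ⟨v, hv, u, huT, huS⟩ := hD₂c y ⟨hy, h12⟩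
          obtain ⟨w, hw, hw'⟩ := hOR (S y) (hS y) h3 ⟨v, Or.inr (mem_filter.2 ⟨hv,
            sub_inside hp (hT v) (hx2' v hv) huT (hy1 huS)⟩), u, huT, huS⟩
          exact ⟨w, mem_union_left _ hw, hw'⟩
        · obtain ⟨v, hv, hvy⟩ := hD₁c y ⟨hy, h4⟩
          by_cases h5 : T v ⊆ Dsc p x
          · obtain ⟨w, hw, hw'⟩ := hOR (S y) (hS y) h3 ⟨v, Or.inl (mem_filter.2 ⟨hv, h5⟩), hvy⟩
            exact ⟨w, mem_union_left _ hw, hw'⟩
          · exact ⟨v, mem_union_right _ (mem_filter.2 ⟨hv, h5⟩), hvy⟩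
      · obtain ⟨w, hw, hw'⟩ := hOc y h3
        exact ⟨w, mem_union_left _ hw, hw'⟩
      · obtain ⟨w, hw, hw'⟩ := f1 y h3
        exact ⟨w, mem_union_right _ hw, hw'⟩
    have h5 := card_union_le O (D₁.filter (fun v => ¬ T v ⊆ Dsc p x))
    have h6 := cov_le _ e1
    omega
  obtain ⟨x, ⟨hx1, hx2⟩, hx⟩ := sub_meet hp (hS y₁) (hS y₂) hne
  rcases hx with hx | hx
  · exact key y₁ y₂ h1 h2 h12 x hx1 hx2 hx
  · exact key y₂ y₁ h2 h1 h12.symm x hx2 hx1 hx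

/-- **The min-max theorem.** -/
theorem minmax [Finite α] (hp : ∀ u, u ≤ p u) (hT : ∀ v, Sub p (T v)) (hS : ∀ y, Sub p (S y))
    (hcov : ∀ x, ∃ v, x ∈ T v) (A : Set α) :
    ∃ B : Set α, B ⊆ A ∧ (∀ y ∈ B, ∀ y' ∈ B, y ≠ y' → ¬ (S y ∩ S y').Nonempty) ∧
      cov (Hit T S) A ≤ cov (Hit T S) B := by
  obtain ⟨B, hB, hmin⟩ : ∃ B ∈ {B : Set α | B ⊆ A ∧ cov (Hit T S) A ≤ cov (Hit T S) B},
      ∀ C ∈ {B : Set α | B ⊆ A ∧ cov (Hit T S) A ≤ cov (Hit T S) B}, ¬ C < B :=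
    (wellFounded_lt (α := Set α)).has_min _ ⟨A, Set.Subset.rfl, le_rfl⟩
  refine ⟨B, hB.1, ?_, hB.2⟩
  intro y hy y' hy' hyy
  refine critical hp hT hS hcov (fun z hz => ?_) hy hy' hyy
  by_contra hcon
  push Not at hcon
  refine hmin (B \ {z}) ⟨Set.sdiff_subset.trans hB.1, hB.2.trans hcon⟩ ?_
  refine ⟨Set.sdiff_subset, fun h => ?_⟩
  exact (h hz).2 rfl

end main

end Pool.Agent.Q29.VZ
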