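import Mathlib
import Pool.Agent.Q29.VZ.Min

/-!
# Distance domination in chordal graphs and in graphs with a given tree-length
-/

set_option autoImplicit false
set_option linter.unusedSectionVars false

namespace Pool.Agent.Q29.VZ

open Finset

section dist

variable {V : Type*} {G : SimpleGraph V}

theorem edist_step {j : ℕ} {w y : V} (h : G.edist w y ≤ ((j + 1 : ℕ) : ℕ∞)) :
    ∃ w', (w' = w ∨ G.Adj w w') ∧ G.edist w' y ≤ (j : ℕ∞) := by
  obtain ⟨q, hq⟩ := SimpleGraph.exists_walk_of_edist_ne_top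
    (ne_top_of_le_ne_top (ENat.natCast_ne_top _) h)
  rw [← hq] at h
  have h' : q.length ≤ j + 1 := by exact_mod_cast h
  cases q with
  | nil => exact ⟨w, Or.inl rfl, by simp⟩
  | cons hadj r =>
    rw [SimpleGraph.Walk.length_cons] at h'
    refine ⟨_, Or.inr hadj, (SimpleGraph.edist_le r).trans ?_⟩
    exact_mod_cast (by omega : r.length ≤ j)

theorem edist_one {v w : V} (h : w = v ∨ G.Adj v w) : G.edist v w ≤ 1 := by
  rw [SimpleGraph.edist_le_one_iff_adj_or_eq]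
  rcases h with h | h
  · exact Or.inr h.symm
  · exact Or.inl h

theorem edist_split {i j : ℕ} {a b : V} (h : G.edist a b ≤ ((i + j : ℕ) : ℕ∞)) :
    ∃ c, G.edist a c ≤ (i : ℕ∞) ∧ G.edist c b ≤ (j : ℕ∞) := by
  induction i generalizing a with
  | zero => exact ⟨a, by simp, by simpa using h⟩
  | succ i ih =>
    have h' : G.edist a b ≤ ((i + j + 1 : ℕ) : ℕ∞) := by
      have : i + 1 + j = i + j + 1 := by omega
      rwa [this] at h
    obtain ⟨a', ha', ha'b⟩ := edist_step h'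
    obtain ⟨c, h1, h2⟩ := ih ha'b
    refine ⟨c, ?_, h2⟩
    calc G.edist a c ≤ G.edist a a' + G.edist a' c := SimpleGraph.edist_triangle
      _ ≤ 1 + (i : ℕ∞) := add_le_add (edist_one ha') h1
      _ = ((i + 1 : ℕ) : ℕ∞) := by push_cast; ring

end dist

section elim

variable {V : Type*} [Fintype V] [LinearOrder V] {G G' : SimpleGraph V}

/-- the nodes of the vertex `v` -/
def Tn (G' : SimpleGraph V) (v : V) : Set V := {u | u = v ∨ (u < v ∧ G'.Adj u v)}

/-- the nodes of the ball with radius `j` and centre `y` -/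
def Sn (G G' : SimpleGraph V) (j : ℕ) (y : V) : Set V :=
  {u | ∃ w, u ∈ Tn G' w ∧ G.edist w y ≤ (j : ℕ∞)}

theorem exists_parent (G' : SimpleGraph V) : ∃ p : V → V, (∀ u, u ≤ p u) ∧
    ∀ u w, u < w → G'.Adj u w → u < p u ∧ G'.Adj u (p u) ∧ p u ≤ w := by
  have h : ∀ u, ∃ q, u ≤ q ∧ ∀ w, u < w → G'.Adj u w → u < q ∧ G'.Adj u q ∧ q ≤ w := by
    intro u
    by_cases hex : ∃ w, u < w ∧ G'.Adj u w
    · obtain ⟨q, hq, hmin⟩ := (wellFounded_lt (α := V)).has_min {w | u < w ∧ G'.Adj u w} hex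
      refine ⟨q, hq.1.le, fun w h1 h2 => ⟨hq.1, hq.2, ?_⟩⟩
      exact not_lt.1 (hmin w ⟨h1, h2⟩)
    · exact ⟨u, le_rfl, fun w h1 h2 => absurd ⟨w, h1, h2⟩ hex⟩
  choose p hp using h
  exact ⟨p, fun u => (hp u).1, fun u => (hp u).2⟩

theorem Tn_meet {v w : V} (h : w = v ∨ G'.Adj v w) : (Tn G' v ∩ Tn G' w).Nonempty := by
  rcases h with h | h
  · rw [h]
    exact ⟨v, Or.inl rfl, Or.inl rfl⟩
  · rcases lt_or_gt_of_ne h.ne with h1 | h1
    · exact ⟨v, Or.inl rfl, Or.inr ⟨h1, h⟩⟩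
    · exact ⟨w, Or.inr ⟨h1, h.symm⟩, Or.inl rfl⟩

theorem meet_Sn (hGG : G ≤ G') {j : ℕ} {y y' : V}
    (h : G.edist y y' ≤ ((2 * j + 1 : ℕ) : ℕ∞)) : (Sn G G' j y ∩ Sn G G' j y').Nonempty := by
  have h0 : 2 * j + 1 = j + (j + 1) := by omega
  rw [h0] at h
  obtain ⟨c, h1, h2⟩ := edist_split h
  obtain ⟨c', h3, h4⟩ := edist_step h2
  obtain ⟨u, hu1, hu2⟩ := Tn_meet (h3.imp_right fun h => hGG h)
  exact ⟨u, ⟨c, hu1, by rwa [SimpleGraph.edist_comm]⟩, c', hu2, h4⟩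

theorem edist_hit (hGG : G ≤ G') {j : ℕ} {v y : V}
    (h : G.edist v y ≤ ((j + 1 : ℕ) : ℕ∞)) : Hit (Tn G') (Sn G G' j) v y := by
  obtain ⟨w, hw, hwy⟩ := edist_step h
  obtain ⟨u, hu1, hu2⟩ := Tn_meet (hw.imp_right fun h => hGG h)
  exact ⟨u, hu1, w, hu2, hwy⟩

variable (hG : ∀ u v w : V, u < v → u < w → v ≠ w → G'.Adj u v → G'.Adj u w → G'.Adj v w)

include hG

theorem sub_Tn {p : V → V}
    (hp : ∀ u w, u < w → G'.Adj u w → u < p u ∧ G'.Adj u (p u) ∧ p u ≤ w) (v : V) :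
    Sub p (Tn G' v) := by
  refine ⟨v, Or.inl rfl, fun u hu huv => ?_⟩
  obtain ⟨h1, h2⟩ := hu.resolve_left huv
  obtain ⟨h3, h4, h5⟩ := hp u v h1 h2
  refine ⟨?_, h3.ne'⟩
  rcases h5.eq_or_lt with h6 | h6
  · exact Or.inl h6
  · exact Or.inr ⟨h6, hG u (p u) v h3 h1 h6.ne h4 h2⟩

theorem meet_Tn {v w : V} (h : (Tn G' v ∩ Tn G' w).Nonempty) : w = v ∨ G'.Adj v w := by
  obtain ⟨u, hv, hw⟩ := h
  by_cases hvw : w = v
  · exact Or.inl hvw
  · right
    rcases hv with rfl | ⟨h1, h2⟩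
    · rcases hw with h3 | ⟨h3, h4⟩
      · exact absurd h3.symm hvw
      · exact h4
    · rcases hw with rfl | ⟨h3, h4⟩
      · exact h2.symm
      · exact hG u v w h1 h3 (Ne.symm hvw) h2 h4

theorem sub_Sn (hGG : G ≤ G') {p : V → V} (hp0 : ∀ u, u ≤ p u)
    (hp : ∀ u w, u < w → G'.Adj u w → u < p u ∧ G'.Adj u (p u) ∧ p u ≤ w) (j : ℕ) (y : V) :
    Sub p (Sn G G' j y) := by
  classical
  induction j with
  | zero =>
    have : Sn G G' 0 y = Tn G' y := by
      ext u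
      constructor
      · rintro ⟨w, hu, hw⟩
        have : w = y := by
          have h1 : G.edist w y = 0 := by simpa using hw
          exact SimpleGraph.edist_eq_zero_iff.1 h1
        rwa [this] at hu
      · intro hu
        exact ⟨y, hu, by simp⟩
    rw [this]
    exact sub_Tn hG hp y
  | succ j ih =>
    have hfin : ∀ F : Finset V, (∀ w ∈ F, (Sn G G' j y ∩ Tn G' w).Nonempty) →
        Sub p (Sn G G' j y ∪ ⋃ w ∈ F, Tn G' w) := by
      intro F
      induction F using Finset.induction with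
      | empty =>
        intro _
        simpa using ih
      | insert w F hw hF =>
        intro h
        have h1 := hF fun w' hw' => h w' (mem_insert_of_mem hw')
        have h2 := sub_union hp0 h1 (sub_Tn hG hp w) (by
          obtain ⟨u, hu1, hu2⟩ := h w (mem_insert_self _ _)
          exact ⟨u, Or.inl hu1, hu2⟩)
        have h3 : Sn G G' j y ∪ ⋃ w' ∈ insert w F, Tn G' w' =
            Sn G G' j y ∪ (⋃ w' ∈ F, Tn G' w') ∪ Tn G' w := by
          rw [Finset.set_biUnion_insert, Set.union_assoc, Set.union_comm (Tn G' w)]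
        rw [h3]
        exact h2
    have heq : Sn G G' (j + 1) y = Sn G G' j y ∪
        ⋃ w ∈ Finset.univ.filter (fun w => G.edist w y ≤ ((j + 1 : ℕ) : ℕ∞)), Tn G' w := by
      ext u
      constructor
      · rintro ⟨w, hu, hw⟩
        right
        simp only [Set.mem_iUnion]
        exact ⟨w, by simpa using hw, hu⟩
      · rintro (⟨w, hu, hw⟩ | hu)
        · refine ⟨w, hu, hw.trans ?_⟩
          exact_mod_cast Nat.le_succ j
        · simp only [Set.mem_iUnion] at hu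
          obtain ⟨w, hw, hu⟩ := hu
          exact ⟨w, hu, (mem_filter.1 hw).2⟩
    rw [heq]
    refine hfin _ fun w hw => ?_
    obtain ⟨w', hw', hw'y⟩ := edist_step (mem_filter.1 hw).2
    obtain ⟨u, hu1, hu2⟩ := Tn_meet (hw'.imp_right fun h => hGG h)
    exact ⟨u, ⟨w', hu2, hw'y⟩, hu1⟩

theorem hit_edist {l : ℕ} (hl : ∀ u v, G'.Adj u v → G.edist u v ≤ (l : ℕ∞)) {j : ℕ} {v y : V}
    (h : Hit (Tn G') (Sn G G' j) v y) : G.edist v y ≤ ((j + l : ℕ) : ℕ∞) := by
  obtain ⟨u, hu, w, hw, hwy⟩ := h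
  have h1 : G.edist v w ≤ (l : ℕ∞) := by
    rcases meet_Tn hG ⟨u, hu, hw⟩ with h | h
    · rw [h]
      simp
    · exact hl v w h
  calc G.edist v y ≤ G.edist v w + G.edist w y := SimpleGraph.edist_triangle
    _ ≤ (l : ℕ∞) + (j : ℕ∞) := add_le_add h1 hwy
    _ = ((j + l : ℕ) : ℕ∞) := by push_cast; ring

/-- **Balls of radius `k` in graphs with a chordal supergraph all edges of which join vertices at
distance at most `l`**: for some set of vertices with pairwise distances at least `2 k` at least as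
many balls of radius `k` are needed as balls of radius `k + l - 1` for all vertices. -/
theorem length_minmax (hGG : G ≤ G') {l : ℕ} (hl : ∀ u v, G'.Adj u v → G.edist u v ≤ (l : ℕ∞))
    (k : ℕ) (hk : 1 ≤ k) : ∃ B : Set V,
    (∀ y ∈ B, ∀ y' ∈ B, y ≠ y' → ((2 * k - 1 : ℕ) : ℕ∞) < G.edist y y') ∧
    cov (fun u v => G.edist u v ≤ ((k + l - 1 : ℕ) : ℕ∞)) (Set.univ : Set V) ≤
      cov (fun u v => G.edist u v ≤ (k : ℕ∞)) B := by
  obtain ⟨j, rfl⟩ : ∃ j, k = j + 1 := ⟨k - 1, by omega⟩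
  obtain ⟨p, hp0, hp⟩ := exists_parent G'
  have hTc : ∀ x : V, ∃ v, x ∈ Tn G' v := fun x => ⟨x, Or.inl rfl⟩
  obtain ⟨B, _, hB, hBc⟩ := minmax (T := Tn G') (S := Sn G G' j) hp0 (sub_Tn hG hp)
    (sub_Sn hG hGG hp0 hp j) hTc Set.univ
  refine ⟨B, fun y hy y' hy' hyy => ?_, ?_⟩
  · by_contra hcon
    rw [not_lt] at hcon
    have h0 : 2 * (j + 1) - 1 = 2 * j + 1 := by omega
    rw [h0] at hcon
    exact hB y hy y' hy' hyy (meet_Sn hGG hcon)
  · have h1 : cov (fun u v => G.edist u v ≤ ((j + 1 + l - 1 : ℕ) : ℕ∞)) (Set.univ : Set V) ≤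
        cov (Hit (Tn G') (Sn G G' j)) (Set.univ : Set V) := by
      obtain ⟨E, hE, hEc⟩ := exists_cov _ (univ_covers (T := Tn G') (sub_Sn hG hGG hp0 hp j) hTc
        (Set.univ : Set V))
      rw [← hE]
      refine cov_le E fun y hy => ?_
      obtain ⟨v, hv, hvy⟩ := hEc y hy
      refine ⟨v, hv, ?_⟩
      have h0 : j + 1 + l - 1 = j + l := by omega
      rw [h0]
      exact hit_edist hG hl hvy
    have h2 : cov (Hit (Tn G') (Sn G G' j)) B ≤
        cov (fun u v => G.edist u v ≤ ((j + 1 : ℕ) : ℕ∞)) B := by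
      obtain ⟨E, hE, hEc⟩ := exists_cov (rel := fun u v => G.edist u v ≤ ((j + 1 : ℕ) : ℕ∞))
        (A := B) Finset.univ (fun y _ => ⟨y, mem_univ _, by simp⟩)
      rw [← hE]
      refine cov_le E fun y hy => ?_
      obtain ⟨v, hv, hvy⟩ := hEc y hy
      exact ⟨v, hv, edist_hit hGG hvy⟩
    exact h1.trans (hBc.trans h2)

end elim

end Pool.Agent.Q29.VZ
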