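import Mathlib
import Pool.Agent.Q29.VZ.Chordal

/-!
# Distance domination of Cartesian products
-/

set_option autoImplicit false
set_option linter.unusedSectionVars false

namespace Pool.Agent.Q29.VZ

open Finset SimpleGraph

variable {V W : Type*} [Fintype V] [Fintype W]

theorem self_covers (G : SimpleGraph V) (k : ℕ) (A : Set V) :
    ∀ y ∈ A, ∃ u ∈ (Finset.univ : Finset V), G.edist u y ≤ (k : ℕ∞) :=
  fun y _ => ⟨y, mem_univ _, by simp⟩

/-- **Separated sets.** -/
theorem sep_main (k p q : ℕ) (hpq : 2 * k ≤ p + q + 1) (G : SimpleGraph V) (H : SimpleGraph W)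
    (A : Set V) (B : Set W)
    (hA : ∀ y ∈ A, ∀ y' ∈ A, y ≠ y' → (p : ℕ∞) < G.edist y y')
    (hB : ∀ z ∈ B, ∀ z' ∈ B, z ≠ z' → (q : ℕ∞) < H.edist z z') :
    cov (fun u v => G.edist u v ≤ (k : ℕ∞)) A * cov (fun u v => H.edist u v ≤ (k : ℕ∞)) B ≤
      cov (fun u v => (G □ H).edist u v ≤ (k : ℕ∞)) (Set.univ : Set (V × W)) := by
  classical
  obtain ⟨D, hD, hDc⟩ := exists_cov _ (self_covers (G □ H) k Set.univ)
  rw [← hD]
  have hgrid := grid A.toFinset B.toFinset (fun u v => G.edist u v ≤ (k : ℕ∞))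
    (fun u v => H.edist u v ≤ (k : ℕ∞)) (fun v => by simp) (fun w => by simp) D
    (fun s r => G.edist s.1 r.1 + H.edist s.2 r.2 ≤ (k : ℕ∞))
    (fun s r h => ⟨le_trans le_self_add h, le_trans le_add_self h⟩) ?_ ?_
  · rwa [Set.coe_toFinset, Set.coe_toFinset] at hgrid
  · intro s _ r r' h1 h2 h3 h4 h5 h6
    rw [Set.mem_toFinset] at h1 h2 h3 h4
    by_contra hcon
    push Not at hcon
    have e1 : ((p + 1 : ℕ) : ℕ∞) ≤ G.edist r.1 r'.1 := by
      have := Order.add_one_le_of_lt (hA _ h1 _ h3 hcon.1)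
      exact_mod_cast this
    have e2 : ((q + 1 : ℕ) : ℕ∞) ≤ H.edist r.2 r'.2 := by
      have := Order.add_one_le_of_lt (hB _ h2 _ h4 hcon.2)
      exact_mod_cast this
    have e3 : G.edist r.1 r'.1 ≤ G.edist s.1 r.1 + G.edist s.1 r'.1 := by
      rw [edist_comm (u := s.1) (v := r.1)]
      exact SimpleGraph.edist_triangle
    have e4 : H.edist r.2 r'.2 ≤ H.edist s.2 r.2 + H.edist s.2 r'.2 := by
      rw [edist_comm (u := s.2) (v := r.2)]
      exact SimpleGraph.edist_triangle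
    have e5 : ((p + 1 + (q + 1) : ℕ) : ℕ∞) ≤ ((k + k : ℕ) : ℕ∞) := by
      calc ((p + 1 + (q + 1) : ℕ) : ℕ∞) = ((p + 1 : ℕ) : ℕ∞) + ((q + 1 : ℕ) : ℕ∞) := by push_cast; ring
        _ ≤ (G.edist s.1 r.1 + G.edist s.1 r'.1) + (H.edist s.2 r.2 + H.edist s.2 r'.2) :=
          add_le_add (e1.trans e3) (e2.trans e4)
        _ = (G.edist s.1 r.1 + H.edist s.2 r.2) + (G.edist s.1 r'.1 + H.edist s.2 r'.2) := by ring
        _ ≤ (k : ℕ∞) + (k : ℕ∞) := add_le_add h5 h6
        _ = ((k + k : ℕ) : ℕ∞) := by push_cast; ring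
    have e6 : p + 1 + (q + 1) ≤ k + k := by exact_mod_cast e5
    omega
  · intro y _ z _
    obtain ⟨s, hs, hs'⟩ := hDc (y, z) (Set.mem_univ _)
    refine ⟨s, hs, ?_⟩
    rwa [edist_boxProd] at hs'

/-- **The separated set in a graph with a perfect elimination ordering.** -/
theorem elim_sep (k : ℕ) (G : SimpleGraph V) [LinearOrder V]
    (hG : ∀ u v w : V, u < v → u < w → v ≠ w → G.Adj u v → G.Adj u w → G.Adj v w) :
    ∃ B : Set V, (∀ y ∈ B, ∀ y' ∈ B, y ≠ y' → ((2 * k - 1 : ℕ) : ℕ∞) < G.edist y y') ∧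
    cov (fun u v => G.edist u v ≤ (k : ℕ∞)) (Set.univ : Set V) =
      cov (fun u v => G.edist u v ≤ (k : ℕ∞)) B := by
  rcases Nat.eq_zero_or_pos k with rfl | hk
  · refine ⟨Set.univ, fun y _ y' _ hyy => ?_, rfl⟩
    simp only [Nat.mul_zero, Nat.zero_sub, Nat.cast_zero]
    exact edist_pos_of_ne hyy
  · obtain ⟨B, hB, hBc⟩ := length_minmax hG le_rfl (l := 1)
      (fun u v h => by rw [Nat.cast_one]; exact edist_one (Or.inr h)) k hk
    rw [Nat.add_sub_cancel] at hBc
    exact ⟨B, hB, le_antisymm hBc (cov_mono (Set.subset_univ B) _ (self_covers G k _))⟩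

theorem elim_main (k : ℕ) (G G' : SimpleGraph V) (H : SimpleGraph W) (hGG : G ≤ G')
    [LinearOrder V]
    (hG : ∀ u v w : V, u < v → u < w → v ≠ w → G'.Adj u v → G'.Adj u w → G'.Adj v w)
    (hγ : cov (fun u v => G'.edist u v ≤ (k : ℕ∞)) (Set.univ : Set V) =
      cov (fun u v => G.edist u v ≤ (k : ℕ∞)) (Set.univ : Set V)) :
    cov (fun u v => G.edist u v ≤ (k : ℕ∞)) (Set.univ : Set V) *
      cov (fun u v => H.edist u v ≤ (k : ℕ∞)) (Set.univ : Set W) ≤
      cov (fun u v => (G □ H).edist u v ≤ (k : ℕ∞)) (Set.univ : Set (V × W)) := by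
  obtain ⟨B, hB, hBc⟩ := elim_sep k G' hG
  rw [← hγ, hBc]
  refine (sep_main k (2 * k - 1) 0 (by omega) G' H B Set.univ hB
    (fun z _ z' _ hzz => by
      rw [Nat.cast_zero]
      exact edist_pos_of_ne hzz)).trans ?_
  obtain ⟨D, hD, hDc⟩ := exists_cov _ (self_covers (G □ H) k Set.univ)
  rw [← hD]
  refine cov_le D fun v hv => ?_
  obtain ⟨u, hu, huv⟩ := hDc v hv
  refine ⟨u, hu, le_trans ?_ huv⟩
  rw [edist_boxProd, edist_boxProd]
  exact add_le_add_left (edist_anti hGG) _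

theorem length_main (k l : ℕ) (hk : 1 ≤ k) (G G' : SimpleGraph V) (H : SimpleGraph W)
    (hGG : G ≤ G') [LinearOrder V]
    (hG : ∀ u v w : V, u < v → u < w → v ≠ w → G'.Adj u v → G'.Adj u w → G'.Adj v w)
    (hl : ∀ u v, G'.Adj u v → G.edist u v ≤ (l : ℕ∞)) :
    cov (fun u v => G.edist u v ≤ ((k + l - 1 : ℕ) : ℕ∞)) (Set.univ : Set V) *
      cov (fun u v => H.edist u v ≤ (k : ℕ∞)) (Set.univ : Set W) ≤
      cov (fun u v => (G □ H).edist u v ≤ (k : ℕ∞)) (Set.univ : Set (V × W)) := by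
  obtain ⟨B, hB, hBc⟩ := length_minmax hG hGG hl k hk
  refine (Nat.mul_le_mul_right _ hBc).trans ?_
  exact sep_main k (2 * k - 1) 0 (by omega) G H B Set.univ hB
    (fun z _ z' _ hzz => by
      rw [Nat.cast_zero]
      exact edist_pos_of_ne hzz)

/-- comparing distances: a point that is too far from `s` in the second factor -/
theorem closer {k : ℕ} (G : SimpleGraph V) (H : SimpleGraph W) (D : Finset (V × W))
    (hD : ∀ v : V × W, ∃ s ∈ D, G.edist s.1 v.1 + H.edist s.2 v.2 ≤ (k : ℕ∞)) (s : V × W)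
    (hs : ∃ w, (k : ℕ∞) < H.edist s.2 w) :
    ∃ t ∈ D, G.edist t.1 s.1 < H.edist t.2 s.2 := by
  obtain ⟨w, hw⟩ := hs
  obtain ⟨t, ht, htw⟩ := hD (s.1, w)
  refine ⟨t, ht, ?_⟩
  by_contra hcon
  rw [not_lt] at hcon
  have h1 : H.edist s.2 w ≤ H.edist s.2 t.2 + H.edist t.2 w := SimpleGraph.edist_triangle
  have h2 : H.edist s.2 w ≤ (k : ℕ∞) := by
    refine h1.trans (le_trans ?_ htw)
    rw [edist_comm (u := s.2) (v := t.2)]
    exact add_le_add_left hcon _
  exact absurd hw (not_lt.2 h2)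

theorem two_two (k : ℕ) (G : SimpleGraph V) (H : SimpleGraph W)
    (hG : cov (fun u v => G.edist u v ≤ (k : ℕ∞)) (Set.univ : Set V) ≤ 2)
    (hH : cov (fun u v => H.edist u v ≤ (k : ℕ∞)) (Set.univ : Set W) ≤ 2) :
    cov (fun u v => G.edist u v ≤ (k : ℕ∞)) (Set.univ : Set V) *
      cov (fun u v => H.edist u v ≤ (k : ℕ∞)) (Set.univ : Set W) ≤
      cov (fun u v => (G □ H).edist u v ≤ (k : ℕ∞)) (Set.univ : Set (V × W)) := by
  classical
  obtain ⟨D, hD, hDc⟩ := exists_cov _ (self_covers (G □ H) k Set.univ)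
  rw [← hD]
  have hDc' : ∀ v : V × W, ∃ s ∈ D, G.edist s.1 v.1 + H.edist s.2 v.2 ≤ (k : ℕ∞) := by
    intro v
    obtain ⟨s, hs, hs'⟩ := hDc v (Set.mem_univ _)
    exact ⟨s, hs, by rwa [edist_boxProd] at hs'⟩
  rcases isEmpty_or_nonempty V with hV | hV
  · have h0 : cov (fun u v => G.edist u v ≤ (k : ℕ∞)) (Set.univ : Set V) ≤ 0 :=
      cov_le (∅ : Finset V) fun y _ => (hV.false y).elim
    rw [Nat.le_zero.1 h0, Nat.zero_mul]
    exact Nat.zero_le _
  rcases isEmpty_or_nonempty W with hW | hW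
  · have h0 : cov (fun u v => H.edist u v ≤ (k : ℕ∞)) (Set.univ : Set W) ≤ 0 :=
      cov_le (∅ : Finset W) fun y _ => (hW.false y).elim
    rw [Nat.le_zero.1 h0, Nat.mul_zero]
    exact Nat.zero_le _
  obtain ⟨v₀⟩ := hV
  obtain ⟨w₀⟩ := hW
  have hpG : cov (fun u v => G.edist u v ≤ (k : ℕ∞)) (Set.univ : Set V) ≤ D.card := by
    refine (cov_le (D.image Prod.fst) fun y _ => ?_).trans card_image_le
    obtain ⟨s, hs, hs'⟩ := hDc' (y, w₀)
    exact ⟨s.1, mem_image_of_mem _ hs, le_trans le_self_add hs'⟩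
  have hpH : cov (fun u v => H.edist u v ≤ (k : ℕ∞)) (Set.univ : Set W) ≤ D.card := by
    refine (cov_le (D.image Prod.snd) fun y _ => ?_).trans card_image_le
    obtain ⟨s, hs, hs'⟩ := hDc' (v₀, y)
    exact ⟨s.2, mem_image_of_mem _ hs, le_trans le_add_self hs'⟩
  by_cases hG1 : cov (fun u v => G.edist u v ≤ (k : ℕ∞)) (Set.univ : Set V) ≤ 1
  · calc _ ≤ 1 * cov (fun u v => H.edist u v ≤ (k : ℕ∞)) (Set.univ : Set W) :=
        Nat.mul_le_mul_right _ hG1
      _ ≤ D.card := by rw [Nat.one_mul]; exact hpH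
  by_cases hH1 : cov (fun u v => H.edist u v ≤ (k : ℕ∞)) (Set.univ : Set W) ≤ 1
  · calc _ ≤ cov (fun u v => G.edist u v ≤ (k : ℕ∞)) (Set.univ : Set V) * 1 :=
        Nat.mul_le_mul_left _ hH1
      _ ≤ D.card := by rw [Nat.mul_one]; exact hpG
  -- every vertex has a far vertex
  have hfarG : ∀ a : V, ∃ v, (k : ℕ∞) < G.edist a v := by
    intro a
    by_contra hcon
    push Not at hcon
    exact hG1 ((cov_le {a} fun y _ => ⟨a, mem_singleton_self a, hcon y⟩).trans (by simp))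
  have hfarH : ∀ b : W, ∃ w, (k : ℕ∞) < H.edist b w := by
    intro b
    by_contra hcon
    push Not at hcon
    exact hH1 ((cov_le {b} fun y _ => ⟨b, mem_singleton_self b, hcon y⟩).trans (by simp))
  have hcl := fun s => closer G H D hDc' s (hfarH s.2)
  have hcl' : ∀ s : V × W, ∃ t ∈ D, H.edist t.2 s.2 < G.edist t.1 s.1 := by
    intro s
    obtain ⟨v, hv⟩ := hfarG s.1
    obtain ⟨t, ht, htv⟩ := hDc' (v, s.2)
    refine ⟨t, ht, ?_⟩
    by_contra hcon
    rw [not_lt] at hcon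
    have h1 : G.edist s.1 v ≤ G.edist s.1 t.1 + G.edist t.1 v := SimpleGraph.edist_triangle
    have h2 : G.edist s.1 v ≤ (k : ℕ∞) := by
      refine h1.trans (le_trans ?_ htv)
      rw [edist_comm (u := s.1) (v := t.1), add_comm]
      exact add_le_add_right hcon _
    exact absurd hv (not_lt.2 h2)
  have h4 : 4 ≤ D.card := by
    by_contra hlt
    have hlt' : D.card ≤ 3 := by omega
    obtain ⟨s, hs, _⟩ := hDc' (v₀, w₀)
    obtain ⟨t, ht, hts⟩ := hcl s
    obtain ⟨r, hr, hrs⟩ := hcl' s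
    have hst : s ≠ t := by
      rintro rfl
      simp at hts
    have hsr : s ≠ r := by
      rintro rfl
      simp at hrs
    have htr : t ≠ r := by
      rintro rfl
      exact lt_asymm hts hrs
    have hDeq : D = {s, t, r} := by
      symm
      apply eq_of_subset_of_card_le
      · intro x hx
        simp only [mem_insert, mem_singleton] at hx
        rcases hx with rfl | rfl | rfl
        · exact hs
        · exact ht
        · exact hr
      · rw [card_insert_of_notMem (by simp [hst, hsr]), card_insert_of_notMem (by simp [htr]),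
          card_singleton]
        exact hlt'
    -- the point t
    obtain ⟨a, ha, hat⟩ := hcl' t
    rw [hDeq] at ha
    simp only [mem_insert, mem_singleton] at ha
    have h1 : H.edist r.2 t.2 < G.edist r.1 t.1 := by
      rcases ha with rfl | rfl | rfl
      · exfalso
        rw [edist_comm (G := H), edist_comm (G := G)] at hat
        exact lt_asymm hat hts
      · exact absurd hat (by simp)
      · exact hat
    obtain ⟨b, hb, hbr⟩ := hcl r
    rw [hDeq] at hb
    simp only [mem_insert, mem_singleton] at hb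
    rcases hb with rfl | rfl | rfl
    · rw [edist_comm (G := H), edist_comm (G := G)] at hbr
      exact lt_asymm hbr hrs
    · rw [edist_comm (G := H), edist_comm (G := G)] at hbr
      exact lt_asymm hbr h1
    · exact absurd hbr (by simp)
  calc _ ≤ 2 * 2 := Nat.mul_le_mul hG hH
    _ ≤ D.card := h4

end Pool.Agent.Q29.VZ
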